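import Pool.Agent.Y173.LG.Main

/-! # 1-forms growing linearly along light-like geodesics, in every indefinite signature

For all `p, q ≥ 1` with `p + q ≥ 3` there is a closed connected manifold with a complete (flat)
metric of signature `(p, q)` and a 1-form which is affine along every geodesic, with a nonzero slope
along some light-like geodesic through every point. -/

set_option maxSynthPendingDepth 3
set_option linter.overlappingInstances false

open scoped Manifold ContDiff Topology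
open Pool.Agent.Helper831 Pool.Agent.Y173.LG

namespace Pool.Agent.Results.MP_64c48d_gt.LinearGrowthSignatures

/-- Let `p, q ≥ 1` and `p + q ≥ 3`. There are a closed connected smooth manifold `M` (modelled on
`E`), a complete semi-Riemannian metric `g` of signature `(p, q)` on `M` and 1-forms `η`, `ζ` on
`M`, with `η` nowhere zero, such that `ζ (γ')` is constant and
`η (γ' (t)) = - ζ (γ' (0)) ^ 2 * t + η (γ' (0))` along every geodesic `γ` of `g`; through every
point of `M` there is a light-like geodesic along which `η (γ')` is an affine function of nonzero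
slope. -/
theorem result (p q : ℕ) (hp : 1 ≤ p) (hq : 1 ≤ q) (hpq : 3 ≤ p + q) :
    ∃ (E : Type) (_ : NormedAddCommGroup E) (_ : NormedSpace ℝ E) (_ : FiniteDimensional ℝ E)
      (M : Type) (_ : TopologicalSpace M) (_ : ChartedSpace E M) (_ : IsManifold 𝓘(ℝ, E) ∞ M)
      (_ : CompactSpace M) (_ : T2Space M) (_ : ConnectedSpace M)
      (g : SemiRiemannianMetric E M) (η ζ : OneForm E M),
      HasSignature g p q ∧ g.IsComplete ∧ (∀ x, ∃ v, η.form x v ≠ 0) ∧
      (∀ γ : ℝ → M, g.IsGeodesic γ → ∀ t : ℝ,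
        ζ.form (γ t) (velocity E γ t) = ζ.form (γ 0) (velocity E γ 0) ∧
        η.form (γ t) (velocity E γ t) =
          -(ζ.form (γ 0) (velocity E γ 0)) ^ 2 * t + η.form (γ 0) (velocity E γ 0)) ∧
      ∀ x : M, ∃ γ : ℝ → M, g.IsLightlikeGeodesic γ ∧ γ 0 = x ∧
        ∃ C₁ C₂ : ℝ, C₁ ≠ 0 ∧ ∀ t : ℝ, η.form (γ t) (velocity E γ t) = C₁ * t + C₂ := by
  have key : ∀ (a b : ℕ) {s : ℝ} (hs : s ≠ 0) (p q : ℕ),
      HasSignature (met a b hs) p q →
      ∃ (E : Type) (_ : NormedAddCommGroup E) (_ : NormedSpace ℝ E) (_ : FiniteDimensional ℝ E)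
      (M : Type) (_ : TopologicalSpace M) (_ : ChartedSpace E M) (_ : IsManifold 𝓘(ℝ, E) ∞ M)
      (_ : CompactSpace M) (_ : T2Space M) (_ : ConnectedSpace M)
      (g : SemiRiemannianMetric E M) (η ζ : OneForm E M),
      HasSignature g p q ∧ g.IsComplete ∧ (∀ x, ∃ v, η.form x v ≠ 0) ∧
      (∀ γ : ℝ → M, g.IsGeodesic γ → ∀ t : ℝ,
        ζ.form (γ t) (velocity E γ t) = ζ.form (γ 0) (velocity E γ 0) ∧
        η.form (γ t) (velocity E γ t) =
          -(ζ.form (γ 0) (velocity E γ 0)) ^ 2 * t + η.form (γ 0) (velocity E γ 0)) ∧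
      ∀ x : M, ∃ γ : ℝ → M, g.IsLightlikeGeodesic γ ∧ γ 0 = x ∧
        ∃ C₁ C₂ : ℝ, C₁ ≠ 0 ∧ ∀ t : ℝ, η.form (γ t) (velocity E γ t) = C₁ * t + C₂ := by
    intro a b s hs p q hsig
    obtain ⟨η, ζ, h1, h2, -, h4, h5⟩ := main a b hs
    refine ⟨EE a b, inferInstance, inferInstance, inferInstance, NTMfd a b, inferInstance,
      inferInstance, inferInstance, inferInstance, inferInstance, inferInstance, met a b hs, η, ζ,
      hsig, h1, h4, h2, fun x => ?_⟩
    obtain ⟨γ, hγ, hx, hz⟩ := h5 x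
    exact ⟨γ, hγ, hx, _, _, neg_ne_zero.2 (pow_ne_zero 2 hz), fun t => (h2 γ hγ.1 t).2⟩
  rcases Nat.lt_or_ge 1 p with h | h
  · obtain ⟨a, rfl⟩ := Nat.exists_eq_add_of_le (show 2 ≤ p from h)
    obtain ⟨b, rfl⟩ := Nat.exists_eq_add_of_le hq
    exact key a b one_ne_zero _ _ sig_pos
  · have hp1 : p = 1 + 0 := by omega
    obtain ⟨a, rfl⟩ := Nat.exists_eq_add_of_le (show 2 ≤ q by omega)
    subst hp1
    exact key a 0 (neg_ne_zero.2 one_ne_zero) _ _ sig_neg

end Pool.Agent.Results.MP_64c48d_gt.LinearGrowthSignatures
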